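import Pool.Graph.R_seed8.R545.Mw.Defs
import Pool.Agent.KS6_76.COL.Near

/-!
# Modifications of graphs
-/

set_option autoImplicit false

namespace Pool.Agent.KS6_76.NLM

open Pool.Agent.KS6_76.COL Pool.Agent.R545.Mw

/-- The adjacency of the two different vertices `u` and `v` is changed. -/
def toggle {V : Type} (G : SimpleGraph V) (u v : V) : SimpleGraph V where
  Adj x y := x ≠ y ∧ (G.Adj x y ↔ s(x, y) ≠ s(u, v))
  symm := ⟨fun x y h => ⟨h.1.symm, by rw [G.adj_comm, Sym2.eq_swap]; exact h.2⟩⟩
  loopless := ⟨fun x h => h.1 rfl⟩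

/-- `G` can be transformed into a graph with the property `Φ` by at most `s` modifications. Each
modification is the deletion of a vertex, or the change of the adjacency of two vertices, or the
flip with respect to a partition of the vertices into `p` parts (see `COL.flip`). -/
def Nearby (p : ℕ) (Φ : ∀ V : Type, SimpleGraph V → Prop) : ℕ → ∀ V : Type, SimpleGraph V → Prop
  | 0 => Φ
  | s + 1 => fun V G => Nearby p Φ s V G ∨
      (∃ v : V, Nearby p Φ s ↥({v}ᶜ : Set V) (G.induce {v}ᶜ)) ∨
      (∃ u v : V, u ≠ v ∧ Nearby p Φ s V (toggle G u v)) ∨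
      ∃ (c : V → Fin p) (F : Set (Sym2 (Fin p))), Nearby p Φ s V (COL.flip G c F)

/-- The NLC-width of `G` is greater than `k`, but it is at most `k` after the deletion of any
vertex. -/
def NlcCritical (k : ℕ) (V : Type) (G : SimpleGraph V) : Prop :=
  k < nlcWidth G ∧ ∀ v : V, nlcWidth (G.induce {v}ᶜ) ≤ k

end Pool.Agent.KS6_76.NLM
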