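import Pool.Graph.R_seed8.R545.Nl.Final
import Pool.Agent.KS6_76.COL.Near

/-!
# Finite index under modifications of graphs
-/

set_option autoImplicit false

namespace Pool.Agent.KS6_76.NLM

open Classical Pool.Agent.R545.Lc Pool.Agent.R545.Mw Pool.Agent.H333R2.Col
  Pool.Agent.KS6_76.COL SimpleGraph

/-- The general modification: a partition into `p` parts, some of them of given sizes, some of them
are deleted, and the flips `F`. -/
def Op (p : ℕ) (N : Fin p → Option ℕ) (d : Fin p → Prop) (F : Set (Sym2 (Fin p)))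
    (Φ : ∀ V : Type, SimpleGraph V → Prop) (V : Type) (G : SimpleGraph V) : Prop :=
  ∃ c : V → Fin p, (∀ a n, N a = some n → {v | c v = a}.encard = n) ∧
    Φ ↥{v | ¬ d (c v)} (flip (G.induce {v | ¬ d (c v)}) (fun v => c v) F)

variable {Φ Ψ : ∀ V : Type, SimpleGraph V → Prop}

section

variable {V W X L : Type} {G : SimpleGraph X} {G1 : SimpleGraph V} {G2 : SimpleGraph W}
  {i : V → X} {j : W → X} {lam1 : V → L} {lam2 : W → Set L}

theorem glued_op {p : ℕ} (d : Fin p → Prop) (F : Set (Sym2 (Fin p)))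
    (h : Glued G G1 G2 i j (fun v w => lam1 v ∈ lam2 w)) (c : X → Fin p) (c1 : V → Fin p)
    (c2 : W → Fin p) (h1 : ∀ v, c1 v = c (i v)) (h2 : ∀ w, c2 w = c (j w)) :
    Glued (flip (G.induce {x | ¬ d (c x)}) (fun x => c x) F)
      (flip (G1.induce {v | ¬ d (c1 v)}) (fun v => c1 v) F)
      (flip (G2.induce {w | ¬ d (c2 w)}) (fun w => c2 w) F)
      (fun v => ⟨i v, by have := v.2; simp only [Set.mem_ofPred_eq] at this ⊢; rwa [h1] at this⟩)
      (fun w => ⟨j w, by have := w.2; simp only [Set.mem_ofPred_eq] at this ⊢; rwa [h2] at this⟩)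
      (fun v w => ((lam1 v, c1 v) : L × Fin p) ∈
        ({q | (q.1 ∈ lam2 w ↔ s(q.2, c2 w) ∉ F)} : Set (L × Fin p))) where
  inj1 := fun u v huv => Subtype.ext (h.inj1 (congrArg Subtype.val huv))
  inj2 := fun u v huv => Subtype.ext (h.inj2 (congrArg Subtype.val huv))
  disj := fun v w hvw => h.disj v w (congrArg Subtype.val hvw)
  cover := by
    rintro ⟨x, hx⟩
    rcases h.cover x with ⟨v, rfl⟩ | ⟨w, rfl⟩
    · exact Or.inl ⟨⟨v, by simp only [Set.mem_ofPred_eq] at hx ⊢; rwa [h1]⟩, rfl⟩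
    · exact Or.inr ⟨⟨w, by simp only [Set.mem_ofPred_eq] at hx ⊢; rwa [h2]⟩, rfl⟩
  adj1 := by
    intro u v
    simp only [COL.flip, comap_adj, Function.Embedding.subtype_apply, ne_eq, Subtype.mk.injEq, h1,
      h.adj1, h.inj1.eq_iff, Subtype.ext_iff]
  adj2 := by
    intro u v
    simp only [COL.flip, comap_adj, Function.Embedding.subtype_apply, ne_eq, Subtype.mk.injEq, h2,
      h.adj2, h.inj2.eq_iff, Subtype.ext_iff]
  adj12 := by
    intro v w
    have hne := h.disj v w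
    simp only [COL.flip, comap_adj, Function.Embedding.subtype_apply, ne_eq, Subtype.mk.injEq, h1, h2,
      h.adj12, hne, not_false_eq_true, true_and, Set.mem_ofPred_eq]

theorem exists_glue {β : Type} {r : V → W → Prop} (h : Glued G G1 G2 i j r) (c1 : V → β)
    (c2 : W → β) : ∃ c : X → β, (∀ v, c1 v = c (i v)) ∧ ∀ w, c2 w = c (j w) := by
  refine ⟨fun x => Sum.elim c1 c2 ((gluedIso h).symm x), fun v => ?_, fun w => ?_⟩
  · have : (gluedIso h).symm (i v) = Sum.inl v := by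
      rw [RelIso.symm_apply_eq]
      rfl
    simp only [this, Sum.elim_inl]
  · have : (gluedIso h).symm (j w) = Sum.inr w := by
      rw [RelIso.symm_apply_eq]
      rfl
    simp only [this, Sum.elim_inr]

theorem encard_part {β : Type} {r : V → W → Prop} (h : Glued G G1 G2 i j r) (c : X → β)
    (c1 : V → β) (c2 : W → β) (h1 : ∀ v, c1 v = c (i v)) (h2 : ∀ w, c2 w = c (j w)) (a : β) :
    {x | c x = a}.encard = {v | c1 v = a}.encard + {w | c2 w = a}.encard := by
  have e : {x | c x = a} = i '' {v | c1 v = a} ∪ j '' {w | c2 w = a} := by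
    ext x
    simp only [Set.mem_ofPred_eq, Set.mem_union, Set.mem_image]
    constructor
    · intro hx
      rcases h.cover x with ⟨v, rfl⟩ | ⟨w, rfl⟩
      · exact Or.inl ⟨v, by rw [h1, hx], rfl⟩
      · exact Or.inr ⟨w, by rw [h2, hx], rfl⟩
    · rintro (⟨v, hv, rfl⟩ | ⟨w, hw, rfl⟩)
      · rw [← h1, hv]
      · rw [← h2, hw]
  rw [e, Set.encard_union_eq, h.inj1.encard_image, h.inj2.encard_image]
  rw [Set.disjoint_left]
  rintro x ⟨v, -, rfl⟩ ⟨w, -, hw⟩
  exact h.disj v w hw.symm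

end

/-- The gluing congruence of a modification has finite index. -/
theorem finIndex_op (hF : FinIndex Φ) (p : ℕ) (N : Fin p → Option ℕ) (d : Fin p → Prop)
    (F : Set (Sym2 (Fin p))) : FinIndex (Op p N d F Φ) := by
  intro L _
  obtain ⟨I, hI, ch, hch⟩ := hF (L × Fin p)
  obtain ⟨B, hB⟩ : ∃ B, ∀ a n, N a = some n → n ≤ B := by
    refine ⟨∑ a, (N a).getD 0, fun a n hn => ?_⟩
    have := Finset.single_le_sum (f := fun a => (N a).getD 0) (fun _ _ => Nat.zero_le _)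
      (Finset.mem_univ a)
    simpa [hn] using this
  refine ⟨Set ((Fin p → Fin (B + 1)) × I), inferInstance, fun V G lam => {q | ∃ c : V → Fin p,
    (∀ a n, N a = some n → {v | c v = a}.encard = ((q.1 a : ℕ) : ℕ∞)) ∧
      ch _ (flip (G.induce {v | ¬ d (c v)}) (fun v => c v) F) (fun v => (lam v, c v)) = q.2}, ?_⟩
  intro V V' W X X' G1 lam1 G1' lam1' G2 lam2 G G' i j i' j' hg hg' he hΦ
  obtain ⟨c, hN, hc⟩ := hΦ
  have hsum := encard_part hg c (fun v => c (i v)) (fun w => c (j w)) (fun _ => rfl) (fun _ => rfl)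
  -- sizes on the left
  have hex : ∀ a, ∃ m : Fin (B + 1), ∀ n, N a = some n →
      {v | c (i v) = a}.encard = ((m : ℕ) : ℕ∞) := by
    intro a
    cases hNa : N a with
    | none => exact ⟨0, fun n hn => by simp at hn⟩
    | some n =>
      have h1 : {v | c (i v) = a}.encard ≤ n := by
        rw [← hN a n hNa, hsum a]
        exact le_self_add
      obtain ⟨m, hm, hm'⟩ := ENat.le_coe_iff.1 h1
      refine ⟨⟨m, ?_⟩, fun _ _ => hm⟩
      have := hB a n hNa
      omega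
  choose m hm using hex
  have hq : (m, ch _ (flip (G1.induce {v | ¬ d (c (i v))}) (fun v => c (i v)) F)
      (fun v => (lam1 v, c (i v)))) ∈ {q : (Fin p → Fin (B + 1)) × I | ∃ c : V → Fin p,
      (∀ a n, N a = some n → {v | c v = a}.encard = ((q.1 a : ℕ) : ℕ∞)) ∧
      ch _ (flip (G1.induce {v | ¬ d (c v)}) (fun v => c v) F) (fun v => (lam1 v, c v)) = q.2} :=
    ⟨fun v => c (i v), fun a n hn => hm a n hn, rfl⟩
  simp only at he
  rw [he] at hq
  obtain ⟨c1', hN', hc'⟩ := hq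
  obtain ⟨c', e1, e2⟩ := exists_glue hg' c1' (fun w => c (j w))
  refine ⟨c', fun a n hn => ?_, ?_⟩
  · rw [encard_part hg' c' c1' (fun w => c (j w)) e1 e2 a, hN' a n hn, ← hN a n hn, hsum a,
      hm a n hn]
  · exact hch _ _ _ _ _ _ _ _ _ _ _ _ _ _ _ _ _
      (glued_op d F hg c (fun v => c (i v)) (fun w => c (j w)) (fun _ => rfl) (fun _ => rfl))
      (glued_op d F hg' c' c1' (fun w => c (j w)) e1 e2) hc'.symm hc

theorem finIndex_not (hF : FinIndex Φ) : FinIndex (fun V G => ¬ Φ V G) := by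
  intro L _
  obtain ⟨I, hI, ch, hch⟩ := hF L
  refine ⟨I, hI, ch, ?_⟩
  intro V V' W X X' G1 lam1 G1' lam1' G2 lam2 G G' i j i' j' hg hg' he hΦ hΦ'
  exact hΦ (hch _ _ _ _ _ _ _ _ _ _ _ _ _ _ _ _ _ hg' hg he.symm hΦ')

theorem finIndex_or (hF : FinIndex Φ) (hF' : FinIndex Ψ) :
    FinIndex (fun V G => Φ V G ∨ Ψ V G) := by
  intro L _
  obtain ⟨I, hI, ch, hch⟩ := hF L
  obtain ⟨I', hI', ch', hch'⟩ := hF' L
  refine ⟨I × I', inferInstance, fun V G lam => (ch V G lam, ch' V G lam), ?_⟩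
  intro V V' W X X' G1 lam1 G1' lam1' G2 lam2 G G' i j i' j' hg hg' he hΦ
  simp only [Prod.mk.injEq] at he
  rcases hΦ with h | h
  · exact Or.inl (hch _ _ _ _ _ _ _ _ _ _ _ _ _ _ _ _ _ hg hg' he.1 h)
  · exact Or.inr (hch' _ _ _ _ _ _ _ _ _ _ _ _ _ _ _ _ _ hg hg' he.2 h)

theorem finIndex_congr (hF : FinIndex Φ) (h : ∀ V G, Φ V G ↔ Ψ V G) : FinIndex Ψ := by
  intro L _
  obtain ⟨I, hI, ch, hch⟩ := hF L
  refine ⟨I, hI, ch, ?_⟩
  intro V V' W X X' G1 lam1 G1' lam1' G2 lam2 G G' i j i' j' hg hg' he hΦ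
  exact (h _ _).1 (hch _ _ _ _ _ _ _ _ _ _ _ _ _ _ _ _ _ hg hg' he ((h _ _).2 hΦ))

theorem finIndex_exists {ι : Type} [Finite ι] {Φ : ι → ∀ V : Type, SimpleGraph V → Prop}
    (hF : ∀ a, FinIndex (Φ a)) : FinIndex (fun V G => ∃ a, Φ a V G) := by
  intro L _
  have h := fun a => hF a L
  choose I hI ch hch using h
  refine ⟨∀ a, I a, inferInstance, fun V G lam a => ch a V G lam, ?_⟩
  intro V V' W X X' G1 lam1 G1' lam1' G2 lam2 G G' i j i' j' hg hg' he hΦ
  obtain ⟨a, ha⟩ := hΦ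
  exact ⟨a, hch a _ _ _ _ _ _ _ _ _ _ _ _ _ _ _ _ _ hg hg' (congrFun he a) ha⟩

end Pool.Agent.KS6_76.NLM
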