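import Pool.Agent.KS6_76.NLM.Index
import Pool.Agent.KS6_76.NLM.Defs

/-!
# Recognising graphs near the graphs of bounded NLC-width
-/

set_option autoImplicit false

namespace Pool.Agent.KS6_76.NLM

open Classical Pool.Agent.R545.Lc Pool.Agent.R545.Mw Pool.Agent.R545.Nl Pool.Agent.H333R2.Col
  Pool.Agent.KS6_76.COL Pool.Agent.H622R2 Pool.Agent.NPC SimpleGraph

variable {Φ Ψ : ∀ V : Type, SimpleGraph V → Prop}

/-! ### isomorphism invariance -/

theorem isoInv_iff (hI : IsoInv Φ) {V W : Type} {G : SimpleGraph V} {H : SimpleGraph W}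
    (e : G ≃g H) : Φ V G ↔ Φ W H :=
  ⟨hI _ _ _ _ ⟨e⟩, hI _ _ _ _ ⟨e.symm⟩⟩

/-- isomorphism of flips -/
def flipIso {V W : Type} {G : SimpleGraph V} {H : SimpleGraph W} (e : G ≃g H) {p : ℕ}
    (c : V → Fin p) (F : Set (Sym2 (Fin p))) :
    COL.flip G c F ≃g COL.flip H (fun w => c (e.symm w)) F where
  toEquiv := e.toEquiv
  map_rel_iff' := by
    intro u v
    show (e u ≠ e v ∧ (H.Adj (e u) (e v) ↔ s(c (e.symm (e u)), c (e.symm (e v))) ∉ F)) ↔
      (u ≠ v ∧ (G.Adj u v ↔ s(c u, c v) ∉ F))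
    rw [e.map_adj_iff, e.symm_apply_apply, e.symm_apply_apply, ne_eq, ne_eq, e.injective.eq_iff]

/-- isomorphism of toggled graphs -/
def toggleIso {V W : Type} {G : SimpleGraph V} {H : SimpleGraph W} (e : G ≃g H) (a b : V) :
    toggle G a b ≃g toggle H (e a) (e b) where
  toEquiv := e.toEquiv
  map_rel_iff' := by
    intro u v
    show (e u ≠ e v ∧ (H.Adj (e u) (e v) ↔ s(e u, e v) ≠ s(e a, e b))) ↔
      (u ≠ v ∧ (G.Adj u v ↔ s(u, v) ≠ s(a, b)))
    rw [e.map_adj_iff, ne_eq, ne_eq, e.injective.eq_iff]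
    have : s(e u, e v) = s(e a, e b) ↔ s(u, v) = s(a, b) := by
      simp only [Sym2.eq_iff, e.injective.eq_iff]
    rw [ne_eq, ne_eq, this]

/-- isomorphism of vertex-deleted graphs -/
def delIso {V W : Type} {G : SimpleGraph V} {H : SimpleGraph W} (e : G ≃g H) (a : V) :
    G.induce ({a}ᶜ : Set V) ≃g H.induce ({e a}ᶜ : Set W) where
  toFun v := ⟨e v, by
    have := v.2
    simp only [Set.mem_compl_iff, Set.mem_singleton_iff] at this ⊢
    exact fun h => this (e.injective h)⟩
  invFun w := ⟨e.symm w, by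
    have := w.2
    simp only [Set.mem_compl_iff, Set.mem_singleton_iff] at this ⊢
    intro h
    exact this ((e.apply_symm_apply _).symm.trans (congrArg e h))⟩
  left_inv v := Subtype.ext (e.symm_apply_apply _)
  right_inv w := Subtype.ext (e.apply_symm_apply _)
  map_rel_iff' := by
    intro u v
    exact e.map_adj_iff

theorem isoInv_del (hI : IsoInv Φ) :
    IsoInv (fun V G => ∃ v : V, Φ ↥({v}ᶜ : Set V) (G.induce {v}ᶜ)) := by
  rintro V V' G G' ⟨e⟩ ⟨v, hv⟩
  exact ⟨e v, hI _ _ _ _ ⟨delIso e v⟩ hv⟩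

theorem isoInv_toggle (hI : IsoInv Φ) :
    IsoInv (fun V G => ∃ u v : V, u ≠ v ∧ Φ V (toggle G u v)) := by
  rintro V V' G G' ⟨e⟩ ⟨u, v, huv, h⟩
  exact ⟨e u, e v, fun h => huv (e.injective h), hI _ _ _ _ ⟨toggleIso e u v⟩ h⟩

theorem isoInv_flip (hI : IsoInv Φ) (p : ℕ) :
    IsoInv (fun V G => ∃ (c : V → Fin p) (F : Set (Sym2 (Fin p))), Φ V (COL.flip G c F)) := by
  rintro V V' G G' ⟨e⟩ ⟨c, F, h⟩
  exact ⟨_, F, hI _ _ _ _ ⟨flipIso e c F⟩ h⟩

theorem isoInv_not (hI : IsoInv Φ) : IsoInv (fun V G => ¬ Φ V G) := by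
  rintro V V' G G' ⟨e⟩ h h'
  exact h (hI _ _ _ _ ⟨e.symm⟩ h')

theorem isoInv_or (hI : IsoInv Φ) (hI' : IsoInv Ψ) : IsoInv (fun V G => Φ V G ∨ Ψ V G) := by
  rintro V V' G G' e (h | h)
  · exact Or.inl (hI _ _ _ _ e h)
  · exact Or.inr (hI' _ _ _ _ e h)

theorem isoInv_nearby (hI : IsoInv Φ) (p s : ℕ) : IsoInv (Nearby p Φ s) := by
  induction s with
  | zero => exact hI
  | succ s ih =>
    exact isoInv_or ih (isoInv_or (isoInv_del ih) (isoInv_or (isoInv_toggle ih) (isoInv_flip ih p)))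

/-! ### finite index -/

theorem flip_empty {V : Type} {p : ℕ} (G : SimpleGraph V) (c : V → Fin p) :
    COL.flip G c ∅ = G := by
  ext u v
  simp only [COL.flip, Set.mem_empty_iff_false, not_false_eq_true, iff_true]
  exact ⟨fun h => h.2, fun h => ⟨h.ne, h⟩⟩

theorem finIndex_del (hF : FinIndex Φ) :
    FinIndex (fun V G => ∃ v : V, Φ ↥({v}ᶜ : Set V) (G.induce {v}ᶜ)) := by
  refine finIndex_congr (finIndex_op hF 2 ![some 1, none] (fun a => a = 0) ∅) fun V G => ?_
  constructor
  · rintro ⟨c, hN, hc⟩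
    have h1 := hN 0 1 rfl
    rw [Nat.cast_one, Set.encard_eq_one] at h1
    obtain ⟨v, hv⟩ := h1
    have hS : {x | ¬ c x = 0} = ({v}ᶜ : Set V) := by
      rw [← hv]
      rfl
    refine ⟨v, ?_⟩
    rw [flip_empty, hS] at hc
    exact hc
  · rintro ⟨v, hv⟩
    refine ⟨fun x => if x = v then 0 else 1, ?_, ?_⟩
    · intro a n hn
      fin_cases a
      · simp only [Fin.zero_eta, Matrix.cons_val_zero, Option.some.injEq] at hn
        subst hn
        rw [Nat.cast_one, Set.encard_eq_one]
        refine ⟨v, ?_⟩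
        ext x
        simp
      · simp at hn
    · have hS : {x | ¬ (if x = v then (0 : Fin 2) else 1) = 0} = ({v}ᶜ : Set V) := by
        ext x
        simp
      rw [flip_empty, hS]
      exact hv

/-- the partition with the parts `{u}`, `{v}` and the rest -/
noncomputable def three {V : Type} (u v : V) (x : V) : Fin 3 := if x = u then 0 else if x = v then 1 else 2

theorem toggle_eq_flip {V : Type} (G : SimpleGraph V) {u v : V} {c : V → Fin 3}
    (h0 : ∀ x, c x = 0 ↔ x = u) (h1 : ∀ x, c x = 1 ↔ x = v) :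
    COL.flip G c {s(0, 1)} = toggle G u v := by
  ext x y
  simp only [COL.flip, toggle, Set.mem_singleton_iff, Sym2.eq_iff, h0, h1, ne_eq]

theorem three_zero {V : Type} {u v : V} (x : V) : three u v x = 0 ↔ x = u := by
  unfold three
  split_ifs with h1 h2
  · simp [h1]
  · simp [h1]
  · simp [h1]

theorem three_one {V : Type} {u v : V} (huv : u ≠ v) (x : V) : three u v x = 1 ↔ x = v := by
  unfold three
  split_ifs with h1 h2
  · simp [h1, huv]
  · simp [h2]
  · simp [h2]

/-- the graph induced on all vertices -/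
def univIso {V : Type} (G : SimpleGraph V) (S : Set V) (hS : ∀ v, v ∈ S) : G.induce S ≃g G where
  toFun v := v
  invFun v := ⟨v, hS v⟩
  left_inv _ := rfl
  right_inv _ := rfl
  map_rel_iff' := Iff.rfl

theorem finIndex_toggle (hI : IsoInv Φ) (hF : FinIndex Φ) :
    FinIndex (fun V G => ∃ u v : V, u ≠ v ∧ Φ V (toggle G u v)) := by
  refine finIndex_congr (finIndex_op hF 3 ![some 1, some 1, none] (fun _ => False) {s(0, 1)})
    fun V G => ?_
  constructor
  · rintro ⟨c, hN, hc⟩
    have h0 := hN 0 1 rfl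
    have h1 := hN 1 1 rfl
    rw [Nat.cast_one, Set.encard_eq_one] at h0 h1
    obtain ⟨u, hu⟩ := h0
    obtain ⟨v, hv⟩ := h1
    have hu' : ∀ x, c x = 0 ↔ x = u := fun x => by
      have := Set.ext_iff.1 hu x
      simpa using this
    have hv' : ∀ x, c x = 1 ↔ x = v := fun x => by
      have := Set.ext_iff.1 hv x
      simpa using this
    refine ⟨u, v, ?_, ?_⟩
    · rintro rfl
      have h2 := (hu' u).2 rfl
      have h3 := (hv' u).2 rfl
      rw [h2] at h3
      exact absurd h3 (by decide)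
    · rw [← toggle_eq_flip G hu' hv']
      exact hI _ _ _ _ ⟨flipIso (univIso G _ (fun v => by simp)) (fun x => c x) _⟩ hc
  · rintro ⟨u, v, huv, h⟩
    refine ⟨three u v, ?_, ?_⟩
    · intro a n hn
      fin_cases a
      · simp only [Fin.zero_eta, Matrix.cons_val_zero, Option.some.injEq] at hn
        subst hn
        rw [Nat.cast_one, Set.encard_eq_one]
        refine ⟨u, ?_⟩
        ext x
        simp [three_zero]
      · simp at hn
        subst hn
        rw [Nat.cast_one, Set.encard_eq_one]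
        refine ⟨v, ?_⟩
        ext x
        simpa using three_one huv x
      · simp at hn
    · rw [← toggle_eq_flip G three_zero (three_one huv)] at h
      exact hI _ _ _ _ ⟨(flipIso (univIso G _ (fun v => by simp)) (fun x => three u v x) _).symm⟩ h

theorem finIndex_flip (hI : IsoInv Φ) (hF : FinIndex Φ) (p : ℕ) :
    FinIndex (fun V G => ∃ (c : V → Fin p) (F : Set (Sym2 (Fin p))), Φ V (COL.flip G c F)) := by
  refine finIndex_congr (finIndex_exists (fun F : Set (Sym2 (Fin p)) =>
    finIndex_op hF p (fun _ => none) (fun _ => False) F)) fun V G => ?_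
  constructor
  · rintro ⟨F, c, -, hc⟩
    exact ⟨c, F, hI _ _ _ _ ⟨flipIso (univIso G _ (fun v => by simp)) (fun x => c x) _⟩ hc⟩
  · rintro ⟨c, F, h⟩
    exact ⟨F, c, fun a n hn => by simp at hn,
      hI _ _ _ _ ⟨(flipIso (univIso G _ (fun v => by simp)) (fun x => c x) _).symm⟩ h⟩

theorem finIndex_nearby (hI : IsoInv Φ) (hF : FinIndex Φ) (p s : ℕ) :
    FinIndex (Nearby p Φ s) := by
  induction s with
  | zero => exact hF
  | succ s ih =>
    have hI' := isoInv_nearby hI p s
    exact finIndex_or ih (finIndex_or (finIndex_del ih) (finIndex_or (finIndex_toggle hI' ih)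
      (finIndex_flip hI' ih p)))

/-! ### the splitting property -/

theorem hasSplits_of_del {V : Type} [Finite V] {K : ℕ} {G : SimpleGraph V} {v : V}
    (h : HasSplits K (G.induce {v}ᶜ)) : HasSplits (K * 2 ^ 1 + 1) G :=
  hasSplits_of_delete (by simp) h

theorem hasSplits_of_toggle {V : Type} {K : ℕ} {G : SimpleGraph V} {u v : V} (huv : u ≠ v)
    (h : HasSplits K (toggle G u v)) : HasSplits (K * 3) G := by
  rw [← toggle_eq_flip G three_zero (three_one huv)] at h
  exact hasSplits_of_flip h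

theorem splits_nearby (p s K : ℕ)
    (h : ∀ (V : Type) [Finite V] (G : SimpleGraph V), Φ V G → HasSplits K G) :
    ∃ K', ∀ (V : Type) [Finite V] (G : SimpleGraph V), Nearby p Φ s V G → HasSplits K' G := by
  induction s with
  | zero => exact ⟨K, h⟩
  | succ s ih =>
    obtain ⟨K', hK'⟩ := ih
    refine ⟨K' * (3 + p) + 1, fun V _ G hG => ?_⟩
    rcases hG with hG | ⟨v, hG⟩ | ⟨u, v, huv, hG⟩ | ⟨c, F, hG⟩
    · exact (hK' V G hG).mono (by nlinarith)
    · exact (hasSplits_of_del (hK' _ _ hG)).mono (by nlinarith)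
    · exact (hasSplits_of_toggle huv (hK' _ _ hG)).mono (by nlinarith)
    · exact (hasSplits_of_flip (hK' _ _ hG)).mono (by nlinarith)

theorem nearby_congr (h : ∀ (V : Type) [Finite V] (G : SimpleGraph V), Φ V G ↔ Ψ V G) (p s : ℕ) :
    ∀ (V : Type) [Finite V] (G : SimpleGraph V), Nearby p Φ s V G ↔ Nearby p Ψ s V G := by
  induction s with
  | zero => exact h
  | succ s ih =>
    intro V _ G
    simp only [Nearby, ih]

/-! ### recognition -/

theorem inPP_of_finIndex (hI : IsoInv Ψ) (hF : FinIndex Ψ)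
    (hΦ : ∀ (V : Type) [Finite V] (G : SimpleGraph V), Φ V G ↔ Ψ V G) (K : ℕ)
    (hS : ∀ (V : Type) [Finite V] (G : SimpleGraph V), Φ V G → HasSplits K G) :
    InPP (fun M : List (List Bool) => Φ (Fin M.length) (matGraph M)) := by
  obtain ⟨m, χ, δ, acc, hδ, hacc⟩ := exists_machineP hI hF (2 ^ (6 * (K + 1)))
  exact inPP_of_finite_state (K + 1) m (2 ^ (6 * (K + 1))) (by omega) rfl Φ χ δ
    (fun X V W _ G G1 G2 i j l l1 l2 s f1 f2 => hδ X V W G G1 G2 i j l l1 l2 s f1 f2) acc
    (fun V _ G l => (hΦ V G).trans (hacc V G l))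
    (fun V _ G h => (hS V G h).mono (by omega))

/-- Graphs at bounded modification distance of the graphs of NLC-width at most `k` can be
recognised in polynomial time. -/
theorem nearby_inPP (k p s : ℕ) :
    InPP (fun M : List (List Bool) =>
      Nearby p (fun _ G => nlcWidth G ≤ k) s (Fin M.length) (matGraph M)) := by
  obtain ⟨K, hK⟩ := splits_nearby (Φ := fun _ G => nlcWidth G ≤ k) p s (2 * k + 1)
    (fun V _ G h => hasSplits_of_nlcWidth h)
  exact inPP_of_finIndex (isoInv_nearby (ntLE_isoInv k) p s)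
    (finIndex_nearby (ntLE_isoInv k) (finIndex_nt typical' k) p s)
    (nearby_congr (fun V _ G => nlcWidth_le_iff) p s) K hK

/-- The critical graphs for NLC-width at most `k` can be recognised in polynomial time. -/
theorem critical_inPP (k : ℕ) :
    InPP (fun M : List (List Bool) => NlcCritical k (Fin M.length) (matGraph M)) := by
  have hI := ntLE_isoInv k
  have hF := finIndex_nt typical' k
  refine inPP_of_finIndex (Ψ := fun V G => ¬ (NtLE G k ∨ ∃ v : V, ¬ NtLE (G.induce {v}ᶜ) k))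
    (isoInv_not (isoInv_or hI (isoInv_del (isoInv_not hI))))
    (finIndex_not (finIndex_or hF (finIndex_del (finIndex_not hF))))
    (fun V _ G => ?_) ((2 * k + 1) * 2 ^ 1 + 1) (fun V _ G h => ?_)
  · unfold NlcCritical
    rw [not_or, ← nlcWidth_le_iff, not_le]
    push Not
    refine and_congr Iff.rfl (forall_congr' fun v => nlcWidth_le_iff)
  · rcases isEmpty_or_nonempty V with hV | ⟨⟨v⟩⟩
    · have := h.1
      rw [nlcWidth_empty] at this
      omega
    · exact hasSplits_of_del (hasSplits_of_nlcWidth (h.2 v))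

end Pool.Agent.KS6_76.NLM
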